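import Pool.Agent.H221R3.MD.Stmts

/-!
# Project MD, task G (helper235)
-/

set_option autoImplicit false

namespace Pool.Agent.H235R3.MD

open Pool.Agent.H221R3.MD

/-- the graph: adjacency is entry one of the table -/
def G10 : SimpleGraph (Fin 10) where
  Adj u v := DT u v = 1
  symm := ⟨by decide⟩
  loopless := ⟨by decide⟩

theorem lip : ∀ u v w : Fin 10, DT u v = 1 → DT u w ≤ DT v w + 1 := by decide

theorem diag : ∀ u : Fin 10, DT u u = 0 := by decide

theorem next : ∀ u v : Fin 10, u ≠ v → ∃ w : Fin 10, DT u w = 1 ∧ DT u v = DT w v + 1 := by decide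

theorem le_length {u v : Fin 10} (p : G10.Walk u v) : DT u v ≤ p.length := by
  induction p with
  | nil => rw [diag]; exact Nat.zero_le _
  | cons h p ih =>
    rw [SimpleGraph.Walk.length_cons]
    exact (lip _ _ _ h).trans (Nat.add_le_add_right ih 1)

theorem ex_walk : ∀ (n : ℕ) (u v : Fin 10), DT u v = n → ∃ p : G10.Walk u v, p.length = n := by
  intro n
  induction n with
  | zero =>
    intro u v h
    by_cases huv : u = v
    · subst huv
      exact ⟨SimpleGraph.Walk.nil, rfl⟩
    · obtain ⟨w, h1, h2⟩ := next u v huv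
      omega
  | succ n ih =>
    intro u v h
    by_cases huv : u = v
    · subst huv
      rw [diag] at h
      omega
    · obtain ⟨w, h1, h2⟩ := next u v huv
      obtain ⟨p, hp⟩ := ih w v (by omega)
      exact ⟨SimpleGraph.Walk.cons h1 p, by rw [SimpleGraph.Walk.length_cons, hp]⟩

theorem taskG : TaskG := by
  have hr : ∀ u v : Fin 10, G10.Reachable u v := fun u v => by
    obtain ⟨p, -⟩ := ex_walk _ u v rfl
    exact ⟨p⟩
  refine ⟨G10, ⟨hr⟩, fun u v => ?_⟩
  apply le_antisymm
  · obtain ⟨p, hp⟩ := ex_walk _ u v rfl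
    rw [← hp]
    exact SimpleGraph.dist_le p
  · obtain ⟨p, hp⟩ := (hr u v).exists_walk_length_eq_dist
    rw [← hp]
    exact le_length p

end Pool.Agent.H235R3.MD
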